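import Mathlib
import Pool.Agent.H84.ZA

namespace Pool.Agent.Results.MP_4ba7b3_gt.No

open Pool.Agent.H84.ZDefs Pool.Agent.H84.ZA

theorem result : ∃ b : ℕ → ℕ, IsD b ∧ ∃ χ ∈ dual (sup b), χ ∉ HH b :=
  ⟨bb, bb_D, _, xx_mem, xx_not⟩

end Pool.Agent.Results.MP_4ba7b3_gt.No
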